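import Pool.Agent.H317.GI.Stm

set_option autoImplicit false

namespace Pool.Agent.H789.GI

open Matrix Pool.Agent.H317.GR Pool.Agent.H317.GH Pool.Agent.H317.GI

/-- a nonzero matrix of rank at most one is an outer product -/
theorem vec_of_rank {K : Type} [Field K] (A : Matrix (Fin 3) (Fin 3) K) (h0 : A ≠ 0)
    (h1 : A.rank ≤ 1) : ∃ v φ : Fin 3 → K, v ≠ 0 ∧ φ ≠ 0 ∧ A = vecMulVec v φ := by
  rw [Matrix.rank_eq_finrank_span_cols] at h1
  obtain ⟨v, hv⟩ := finrank_le_one_iff.1 h1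
  have hcol : ∀ j, ∃ c : K, ∀ i, A i j = (v : Fin 3 → K) i * c := by
    intro j
    obtain ⟨c, hc⟩ := hv ⟨A.col j, Submodule.subset_span ⟨j, rfl⟩⟩
    refine ⟨c, fun i => ?_⟩
    have h2 := congrFun (congrArg Subtype.val hc) i
    simp only [Submodule.coe_smul, Pi.smul_apply, smul_eq_mul] at h2
    rw [mul_comm]
    exact h2.symm
  choose φ hφ using hcol
  have hA : A = vecMulVec (v : Fin 3 → K) φ := by
    ext i j
    rw [vecMulVec_apply, hφ]
  refine ⟨v, φ, ?_, ?_, hA⟩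
  · rintro h
    exact h0 (by rw [hA, h]; ext i j; simp [vecMulVec_apply])
  · rintro h
    exact h0 (by rw [hA, h]; ext i j; simp [vecMulVec_apply])

theorem rk1 : S_RK1 := by
  intro K _ A hA h3
  by_cases h2 : A ^ 2 = 0
  · have h := rank_add_rank_le_card_of_mul_eq_zero (A := A) (B := A) (by rw [← pow_two]; exact h2)
    rw [Fintype.card_fin] at h
    obtain ⟨v, φ, hv, hφ, e⟩ := vec_of_rank A hA (by omega)
    exact ⟨1, v, φ, hv, hφ, by rw [pow_one]; exact e⟩
  · have h := rank_add_rank_le_card_of_mul_eq_zero (A := A) (B := A ^ 2)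
      (by rw [← pow_succ']; exact h3)
    rw [Fintype.card_fin] at h
    have h4 : (A ^ 2).rank ≤ A.rank := by
      rw [pow_two]
      exact rank_mul_le_left A A
    obtain ⟨v, φ, hv, hφ, e⟩ := vec_of_rank (A ^ 2) h2 (by omega)
    exact ⟨2, v, φ, hv, hφ, e⟩

end Pool.Agent.H789.GI

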